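import Mathlib
import Pool.Agent.Helper51.SymbolDefs
import Pool.Agent.Helper51.CompositeDegree

/-!
Basic facts on symbol algebras: the monomials form a basis, simplicity, splitting, centre.
-/

set_option autoImplicit false

open Finset
open scoped TensorProduct

noncomputable section

namespace Pool.Agent.Q113.TR

open Pool.Agent.Helper51.SymbolDefs Pool.Agent.Helper51.CompositeDegree

section Gen

variable {F : Type} [Field F] {A : Type} [Ring A] [Algebra F A] {n : ℕ} {ξ a b : F}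

/-- the monomials -/
def mon (U V : A) (g : Fin n × Fin n) : A := U ^ g.1.val * V ^ g.2.val

theorem U_mon (hξ0 : ξ ≠ 0) {U V : A} (hUV : U * V = ξ • (V * U)) (g : Fin n × Fin n) :
    U * mon U V g = ξ ^ g.2.val • (mon U V g * U) := by
  have h1 : V * U = ξ⁻¹ • (U * V) := by
    rw [hUV, smul_smul, inv_mul_cancel₀ hξ0, one_smul]
  have h2 := pow_swap ξ⁻¹ U V h1 1 g.2.val
  rw [pow_one, mul_one] at h2
  rw [mon, mul_assoc, h2, mul_smul_comm, smul_smul, ← mul_pow, mul_inv_cancel₀ hξ0, one_pow,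
    one_smul, ← mul_assoc, ← mul_assoc, ← pow_succ', ← pow_succ]

theorem V_mon (hξ0 : ξ ≠ 0) {U V : A} (hUV : U * V = ξ • (V * U)) (g : Fin n × Fin n) :
    V * mon U V g = (ξ⁻¹) ^ g.1.val • (mon U V g * V) := by
  have h1 : V * U = ξ⁻¹ • (U * V) := by
    rw [hUV, smul_smul, inv_mul_cancel₀ hξ0, one_smul]
  have h2 := pow_swap ξ⁻¹ U V h1 g.1.val 1
  rw [pow_one, one_mul] at h2
  rw [mon, ← mul_assoc, h2, smul_mul_assoc, mul_assoc, mul_assoc, ← pow_succ', ← pow_succ]

theorem exists_inv {x : A} (hx : IsUnit x) : ∃ y, x * y = 1 := by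
  obtain ⟨u, rfl⟩ := hx
  exact ⟨_, u.mul_inv⟩

theorem sep (hn0 : 0 < n) (hξ : IsPrimitiveRoot ξ n) (ha : a ≠ 0) (hb : b ≠ 0) {U V : A}
    (hU : U ^ n = algebraMap F A a) (hV : V ^ n = algebraMap F A b) (hUV : U * V = ξ • (V * U))
    (g h : Fin n × Fin n) (hgh : g ≠ h) : ∃ (r s : A) (χ : Fin n × Fin n → F), r * s = 1 ∧
      (∀ k, r * mon U V k = χ k • (mon U V k * r)) ∧ χ g ≠ χ h := by
  have hξ0 : ξ ≠ 0 := hξ.ne_zero hn0.ne'
  obtain ⟨iU, hiU⟩ := exists_inv (isUnit_of_pow hn0 ha hU)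
  obtain ⟨iV, hiV⟩ := exists_inv (isUnit_of_pow hn0 hb hV)
  by_cases h1 : g.1 = h.1
  · have h2 : g.2 ≠ h.2 := fun h2 => hgh (Prod.ext h1 h2)
    exact ⟨U, iU, fun k => ξ ^ k.2.val, hiU, U_mon hξ0 hUV,
      fun h0 => h2 (Fin.ext (hξ.pow_inj g.2.isLt h.2.isLt h0))⟩
  · exact ⟨V, iV, fun k => ξ⁻¹ ^ k.1.val, hiV, V_mon hξ0 hUV,
      fun h0 => h1 (Fin.ext (hξ.inv.pow_inj g.1.isLt h.1.isLt h0))⟩

theorem mon_unit (hn0 : 0 < n) (ha : a ≠ 0) (hb : b ≠ 0) {U V : A}
    (hU : U ^ n = algebraMap F A a) (hV : V ^ n = algebraMap F A b) (g : Fin n × Fin n) :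
    IsUnit (mon U V g) :=
  ((isUnit_of_pow hn0 ha hU).pow _).mul ((isUnit_of_pow hn0 hb hV).pow _)

theorem mon_indep [Nontrivial A] (hn0 : 0 < n) (hξ : IsPrimitiveRoot ξ n) (ha : a ≠ 0) (hb : b ≠ 0)
    {U V : A} (hU : U ^ n = algebraMap F A a) (hV : V ^ n = algebraMap F A b)
    (hUV : U * V = ξ • (V * U)) : LinearIndependent F (mon (n := n) U V) := by
  classical
  rw [Fintype.linearIndependent_iff]
  intro c hc
  by_contra hcon
  push Not at hcon
  obtain ⟨i, hi⟩ := hcon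
  have h1 : (1 : A) ∈ (⊥ : TwoSidedIdeal A) := by
    refine one_mem_of_monomials (F := F) (mon U V) (mon_unit hn0 ha hb hU hV)
      (sep hn0 hξ ha hb hU hV hUV) ⊥ _ c rfl ?_ ?_
    · rw [Finset.card_pos]
      exact ⟨i, by simp [hi]⟩
    · rw [hc]; exact TwoSidedIdeal.zero_mem _
  rw [TwoSidedIdeal.mem_bot] at h1
  exact one_ne_zero h1

end Gen

section Symb

variable {F : Type} [Field F] {n : ℕ} {ξ a b : F}

theorem gm_eq : gm F n ξ a b = mon (gu F n ξ a b) (gv F n ξ a b) := rfl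

theorem symb_simple (hn : 2 ≤ n) (hξ : IsPrimitiveRoot ξ n) (ha : a ≠ 0) (hb : b ≠ 0) :
    IsSimpleRing (SymbolAlg F n ξ a b) := by
  classical
  have hn0 : 0 < n := by omega
  have : Nontrivial (SymbolAlg F n ξ a b) := nontrivial_symb hn0 hξ
  exact simple_of_monomials (F := F) (gm F n ξ a b) (mon_unit hn0 ha hb gu_pow gv_pow)
    (exists_coeff hn (hξ.ne_zero hn0.ne')) (sep hn0 hξ ha hb gu_pow gv_pow gu_gv)

theorem gm_indep (hn : 2 ≤ n) (hξ : IsPrimitiveRoot ξ n) (ha : a ≠ 0) (hb : b ≠ 0) :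
    LinearIndependent F (gm F n ξ a b) := by
  have hn0 : 0 < n := by omega
  have : Nontrivial (SymbolAlg F n ξ a b) := nontrivial_symb hn0 hξ
  exact mon_indep hn0 hξ ha hb gu_pow gv_pow gu_gv

/-- the monomial basis of the symbol algebra -/
def sb (hn : 2 ≤ n) (hξ : IsPrimitiveRoot ξ n) (ha : a ≠ 0) (hb : b ≠ 0) :
    Module.Basis (Fin n × Fin n) F (SymbolAlg F n ξ a b) :=
  Module.Basis.mk (gm_indep hn hξ ha hb)
    (span_gm hn (hξ.ne_zero (Nat.ne_of_gt (by omega)))).ge

theorem sb_apply (hn : 2 ≤ n) (hξ : IsPrimitiveRoot ξ n) (ha : a ≠ 0) (hb : b ≠ 0)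
    (g : Fin n × Fin n) : sb hn hξ ha hb g = gm F n ξ a b g := by
  rw [sb, Module.Basis.mk_apply]

theorem finrank_symb_eq (hn : 2 ≤ n) (hξ : IsPrimitiveRoot ξ n) (ha : a ≠ 0) (hb : b ≠ 0) :
    Module.finrank F (SymbolAlg F n ξ a b) = n ^ 2 := by
  rw [Module.finrank_eq_card_basis (sb hn hξ ha hb), Fintype.card_prod, Fintype.card_fin, pow_two]

/-- clock and shift -/
theorem clock_shift (E : Type) [Field E] [IsAlgClosed E] (hn : 0 < n) (ζ a b : E)
    (hζ : ζ ^ n = 1) : ∃ U V : Module.End E (ZMod n → E),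
      U ^ n = algebraMap E _ a ∧ V ^ n = algebraMap E _ b ∧ U * V = ζ • (V * U) := by
  have : NeZero n := ⟨hn.ne'⟩
  obtain ⟨σ, hσ⟩ := IsAlgClosed.exists_pow_nat_eq a hn
  obtain ⟨τ, hτ⟩ := IsAlgClosed.exists_pow_nat_eq b hn
  let U : Module.End E (ZMod n → E) :=
    { toFun := fun φ i => σ * ζ ^ (i.val) * φ i
      map_add' := by intro x y; funext i; simp [mul_add]
      map_smul' := by intro r x; funext i; simp; ring }
  let V : Module.End E (ZMod n → E) :=
    { toFun := fun φ i => τ * φ (i - 1)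
      map_add' := by intro x y; funext i; simp [mul_add]
      map_smul' := by intro r x; funext i; simp; ring }
  have hUk : ∀ k : ℕ, ∀ φ i, (U ^ k) φ i = σ ^ k * (ζ ^ k) ^ (i.val) * φ i := by
    intro k
    induction k with
    | zero => intro φ i; simp
    | succ k ih =>
      intro φ i
      rw [pow_succ, Module.End.mul_apply, ih]
      change σ ^ k * (ζ ^ k) ^ i.val * (σ * ζ ^ (i.val) * φ i) = _
      rw [pow_succ ζ k, mul_pow]; ring
  have hVk : ∀ k : ℕ, ∀ φ i, (V ^ k) φ i = τ ^ k * φ (i - k) := by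
    intro k
    induction k with
    | zero => intro φ i; simp
    | succ k ih =>
      intro φ i
      rw [pow_succ, Module.End.mul_apply, ih]
      change τ ^ k * (τ * φ (i - k - 1)) = _
      rw [pow_succ, Nat.cast_succ, sub_sub]; ring
  have hU : U ^ n = algebraMap E _ a := by
    apply LinearMap.ext; intro φ; funext i
    rw [hUk, hζ, one_pow, mul_one, hσ, Module.algebraMap_end_apply, Pi.smul_apply, smul_eq_mul]
  have hV : V ^ n = algebraMap E _ b := by
    apply LinearMap.ext; intro φ; funext i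
    rw [hVk, hτ, ZMod.natCast_self, sub_zero, Module.algebraMap_end_apply, Pi.smul_apply,
      smul_eq_mul]
  have hstep : ∀ i : ZMod n, ζ ^ (i.val) = ζ * ζ ^ ((i - 1).val) := by
    intro i
    have h1 : ((i - 1).val + 1) % n = i.val := by
      have := ZMod.val_natCast (n := n) ((i - 1).val + 1)
      rw [← this]
      congr 1
      push_cast
      rw [ZMod.natCast_zmod_val]; ring
    rw [← pow_succ', ← h1]
    exact (pow_eq_pow_mod _ hζ).symm
  refine ⟨U, V, hU, hV, ?_⟩
  apply LinearMap.ext; intro φ; funext i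
  rw [Module.End.mul_apply, LinearMap.smul_apply, Module.End.mul_apply, Pi.smul_apply, smul_eq_mul]
  change σ * ζ ^ (i.val) * (τ * φ (i - 1)) = ζ * (τ * (σ * ζ ^ ((i - 1).val) * φ (i - 1)))
  rw [hstep i]; ring

/-- splitting over the algebraic closure -/
theorem symb_split (hn : 2 ≤ n) (hξ : IsPrimitiveRoot ξ n) (ha : a ≠ 0) (hb : b ≠ 0) :
    Nonempty ((AlgebraicClosure F ⊗[F] SymbolAlg F n ξ a b) ≃ₐ[AlgebraicClosure F]
      Matrix (Fin n) (Fin n) (AlgebraicClosure F)) := by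
  have hn0 : 0 < n := by omega
  have : NeZero n := ⟨hn0.ne'⟩
  set E := AlgebraicClosure F with hE
  obtain ⟨U, V, hU, hV, hUV⟩ := clock_shift E hn0 (algebraMap F E ξ) (algebraMap F E a)
    (algebraMap F E b) (by rw [← map_pow, hξ.pow_eq_one, map_one])
  have hU' : U ^ n = algebraMap F (Module.End E (ZMod n → E)) a := by
    rw [hU, ← IsScalarTower.algebraMap_apply F E]
  have hV' : V ^ n = algebraMap F (Module.End E (ZMod n → E)) b := by
    rw [hV, ← IsScalarTower.algebraMap_apply F E]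
  have hUV' : U * V = ξ • (V * U) := by
    rw [hUV, algebraMap_smul]
  let f : SymbolAlg F n ξ a b →ₐ[F] Module.End E (ZMod n → E) := lift U V hU' hV' hUV'
  have hfm : ∀ g, f (gm F n ξ a b g) = mon U V g := by
    intro g
    have h1 : f (gu F n ξ a b) = U := by
      simp only [f, lift, gu, RingQuot.liftAlgHom_mkAlgHom_apply, FreeAlgebra.lift_ι_apply]
      rfl
    have h2 : f (gv F n ξ a b) = V := by
      simp only [f, lift, gv, RingQuot.liftAlgHom_mkAlgHom_apply, FreeAlgebra.lift_ι_apply]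
      rfl
    rw [gm, map_mul, map_pow, map_pow, h1, h2, mon]
  let Φ : E ⊗[F] SymbolAlg F n ξ a b →ₐ[E] Module.End E (ZMod n → E) :=
    Algebra.TensorProduct.lift (Algebra.ofId E _) f (fun x y => Algebra.commutes x (f y))
  have hind : LinearIndependent E (mon (n := n) U V) :=
    mon_indep hn0 (hξ.map_of_injective (algebraMap F E).injective) (by simpa using ha)
      (by simpa using hb) hU hV hUV
  have hinj : Function.Injective Φ := by
    rw [injective_iff_map_eq_zero]
    intro x hx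
    let B := Algebra.TensorProduct.basis E (sb hn hξ ha hb)
    rw [← B.sum_repr x] at hx ⊢
    rw [map_sum] at hx
    have h1 : ∑ g, B.repr x g • mon U V g = 0 := by
      rw [← hx]
      apply Finset.sum_congr rfl
      intro g _
      rw [map_smul]
      congr 1
      have h3 : B g = 1 ⊗ₜ[F] gm F n ξ a b g := by
        simp only [B, Algebra.TensorProduct.basis_apply, sb_apply]
      have h4 : Φ (1 ⊗ₜ[F] gm F n ξ a b g) = Algebra.ofId E _ 1 * f (gm F n ξ a b g) :=
        Algebra.TensorProduct.lift_tmul _ _ _ _ _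
      rw [h3, h4, map_one, one_mul, hfm]
    have h2 := Fintype.linearIndependent_iff.mp hind _ h1
    apply Finset.sum_eq_zero
    intro g _
    rw [h2, zero_smul]
  have hfin : Module.finrank E (E ⊗[F] SymbolAlg F n ξ a b) =
      Module.finrank E (Module.End E (ZMod n → E)) := by
    rw [Module.finrank_baseChange, finrank_symb_eq hn hξ ha hb, Module.finrank_linearMap,
      Module.finrank_fintype_fun_eq_card, ZMod.card, pow_two]
  have : Module.Finite F (SymbolAlg F n ξ a b) := finite_symb hn (hξ.ne_zero hn0.ne')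
  have hsurj : Function.Surjective Φ :=
    (LinearMap.injective_iff_surjective_of_finrank_eq_finrank (f := Φ.toLinearMap) hfin).mp hinj
  let e1 : (E ⊗[F] SymbolAlg F n ξ a b) ≃ₐ[E] Module.End E (ZMod n → E) :=
    AlgEquiv.ofBijective Φ ⟨hinj, hsurj⟩
  let e2 : Module.End E (ZMod n → E) ≃ₐ[E] Matrix (ZMod n) (ZMod n) E := LinearMap.toMatrixAlgEquiv'
  let e3 : Matrix (ZMod n) (ZMod n) E ≃ₐ[E] Matrix (Fin n) (Fin n) E :=
    Matrix.reindexAlgEquiv E E (Fintype.equivFinOfCardEq (ZMod.card n))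
  exact ⟨(e1.trans e2).trans e3⟩

end Symb

end Pool.Agent.Q113.TR
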