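import Mathlib
import Pool.Agent.Q113.TR.Base

/-!
The reduced trace of a symbol algebra and large subspaces on which the reduced trace of `v ^ r`
vanishes.
-/

set_option autoImplicit false

open Finset
open scoped TensorProduct

noncomputable section

namespace Pool.Agent.Q113.TR

open Pool.Agent.Helper51.SymbolDefs Pool.Agent.Helper51.CompositeDegree

/-- `t` is the reduced trace of the central simple `F`-algebra `A`: the algebra `A` is split by
some extension field of `F`, and for every extension field `K` of `F` and every isomorphism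
`φ : K ⊗ A ≅ M_m(K)` of `K`-algebras, `t x` is the trace of the matrix `φ (1 ⊗ x)`. -/
def IsReducedTrace (F A : Type) [Field F] [Ring A] [Algebra F A] (t : A →ₗ[F] F) : Prop :=
  (∃ (K : Type) (_ : Field K) (_ : Algebra F K) (m : ℕ),
    Nonempty ((K ⊗[F] A) ≃ₐ[K] Matrix (Fin m) (Fin m) K)) ∧
  ∀ (K : Type) [Field K] [Algebra F K] (m : ℕ)
    (φ : (K ⊗[F] A) ≃ₐ[K] Matrix (Fin m) (Fin m) K) (x : A),
      Matrix.trace (φ (1 ⊗ₜ[F] x)) = algebraMap F K (t x)

section Coef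

variable {F : Type} [Field F] {n : ℕ} {ξ a b : F}

/-- comparison of coefficients -/
theorem coef_u (hn : 2 ≤ n) (hξ : IsPrimitiveRoot ξ n) (ha : a ≠ 0) (hb : b ≠ 0)
    (x : SymbolAlg F n ξ a b) (c : F) (hx : gu F n ξ a b * x = c • (x * gu F n ξ a b))
    (g : Fin n × Fin n) (hg : (sb hn hξ ha hb).repr x g ≠ 0) : ξ ^ g.2.val = c := by
  have hn0 : 0 < n := by omega
  have hξ0 := hξ.ne_zero hn0.ne'
  obtain ⟨w, hw⟩ := exists_inv (isUnit_of_pow hn0 ha
    (gu_pow (F := F) (n := n) (ξ := ξ) (a := a) (b := b)))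
  set B := sb hn hξ ha hb
  have h1 : ∑ g, ((ξ ^ g.2.val - c) * B.repr x g) • gm F n ξ a b g = 0 := by
    have h2 : gu F n ξ a b * x * w = c • x := by
      rw [hx, smul_mul_assoc, mul_assoc, hw, mul_one]
    have h3 : x = ∑ g, B.repr x g • gm F n ξ a b g := by
      conv_lhs => rw [← B.sum_repr x]
      simp only [B, sb_apply]
    have h4 : gu F n ξ a b * x * w = ∑ g, (ξ ^ g.2.val * B.repr x g) • gm F n ξ a b g := by
      conv_lhs => rw [h3]
      rw [Finset.mul_sum, Finset.sum_mul]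
      apply Finset.sum_congr rfl
      intro k _
      rw [mul_smul_comm, gm_eq, U_mon hξ0 gu_gv, smul_mul_assoc, smul_mul_assoc, mul_assoc, hw,
        mul_one, smul_smul, mul_comm]
    rw [h2] at h4
    conv at h4 => lhs; rw [h3]
    rw [Finset.smul_sum] at h4
    have h5 := sub_eq_zero.mpr h4.symm
    rw [← Finset.sum_sub_distrib] at h5
    rw [← h5]
    apply Finset.sum_congr rfl
    intro k _
    rw [smul_smul, sub_mul]
    exact sub_smul (ξ ^ k.2.val * B.repr x k) (c * B.repr x k) (gm F n ξ a b k)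
  have h6 := Fintype.linearIndependent_iff.mp (gm_indep hn hξ ha hb) _ h1 g
  rcases mul_eq_zero.mp h6 with h7 | h7
  · exact sub_eq_zero.mp h7
  · exact absurd h7 hg

/-- comparison of coefficients -/
theorem coef_v (hn : 2 ≤ n) (hξ : IsPrimitiveRoot ξ n) (ha : a ≠ 0) (hb : b ≠ 0)
    (x : SymbolAlg F n ξ a b) (c : F) (hx : gv F n ξ a b * x = c • (x * gv F n ξ a b))
    (g : Fin n × Fin n) (hg : (sb hn hξ ha hb).repr x g ≠ 0) : ξ⁻¹ ^ g.1.val = c := by
  have hn0 : 0 < n := by omega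
  have hξ0 := hξ.ne_zero hn0.ne'
  obtain ⟨w, hw⟩ := exists_inv (isUnit_of_pow hn0 hb
    (gv_pow (F := F) (n := n) (ξ := ξ) (a := a) (b := b)))
  set B := sb hn hξ ha hb
  have h1 : ∑ g, ((ξ⁻¹ ^ g.1.val - c) * B.repr x g) • gm F n ξ a b g = 0 := by
    have h2 : gv F n ξ a b * x * w = c • x := by
      rw [hx, smul_mul_assoc, mul_assoc, hw, mul_one]
    have h3 : x = ∑ g, B.repr x g • gm F n ξ a b g := by
      conv_lhs => rw [← B.sum_repr x]
      simp only [B, sb_apply]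
    have h4 : gv F n ξ a b * x * w = ∑ g, (ξ⁻¹ ^ g.1.val * B.repr x g) • gm F n ξ a b g := by
      conv_lhs => rw [h3]
      rw [Finset.mul_sum, Finset.sum_mul]
      apply Finset.sum_congr rfl
      intro k _
      rw [mul_smul_comm, gm_eq, V_mon hξ0 gu_gv, smul_mul_assoc, smul_mul_assoc, mul_assoc, hw,
        mul_one, smul_smul, mul_comm]
    rw [h2] at h4
    conv at h4 => lhs; rw [h3]
    rw [Finset.smul_sum] at h4
    have h5 := sub_eq_zero.mpr h4.symm
    rw [← Finset.sum_sub_distrib] at h5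
    rw [← h5]
    apply Finset.sum_congr rfl
    intro k _
    rw [smul_smul, sub_mul]
    exact sub_smul (ξ⁻¹ ^ k.1.val * B.repr x k) (c * B.repr x k) (gm F n ξ a b k)
  have h6 := Fintype.linearIndependent_iff.mp (gm_indep hn hξ ha hb) _ h1 g
  rcases mul_eq_zero.mp h6 with h7 | h7
  · exact sub_eq_zero.mp h7
  · exact absurd h7 hg

/-- the symbol algebra is central -/
theorem symb_central (hn : 2 ≤ n) (hξ : IsPrimitiveRoot ξ n) (ha : a ≠ 0) (hb : b ≠ 0) :
    Algebra.IsCentral F (SymbolAlg F n ξ a b) := by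
  have hn0 : 0 < n := by omega
  constructor
  intro x hx
  rw [Subalgebra.mem_center_iff] at hx
  set B := sb hn hξ ha hb with hB
  have hz : ∀ g, g ≠ (⟨0, hn0⟩, ⟨0, hn0⟩) → B.repr x g = 0 := by
    intro g hg
    by_contra hne
    have h1 := coef_u hn hξ ha hb x 1 (by rw [hx, one_smul]) g hne
    have h2 := coef_v hn hξ ha hb x 1 (by rw [hx, one_smul]) g hne
    apply hg
    refine Prod.ext (Fin.ext ?_) (Fin.ext ?_)
    · exact hξ.inv.pow_inj g.1.isLt hn0 (by rw [h2, pow_zero])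
    · exact hξ.pow_inj g.2.isLt hn0 (by rw [h1, pow_zero])
  rw [Algebra.mem_bot]
  refine ⟨B.repr x (⟨0, hn0⟩, ⟨0, hn0⟩), ?_⟩
  conv_rhs => rw [← B.sum_repr x]
  rw [Finset.sum_eq_single (⟨0, hn0⟩, ⟨0, hn0⟩) (fun g _ hg => by rw [hz g hg, zero_smul])
    (by simp), hB, sb_apply, gm, Algebra.algebraMap_eq_smul_one]
  simp

/-- the reduced trace of the symbol algebra -/
def rt (hn : 2 ≤ n) (hξ : IsPrimitiveRoot ξ n) (ha : a ≠ 0) (hb : b ≠ 0) :
    SymbolAlg F n ξ a b →ₗ[F] F :=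
  (n : F) • (sb hn hξ ha hb).coord (⟨0, by omega⟩, ⟨0, by omega⟩)

theorem trace_zero {K : Type} [Field K] {m : ℕ} (M T T' : Matrix (Fin m) (Fin m) K) (c : K)
    (hc : c ≠ 1) (hT : T * T' = 1) (h : T * M = c • (M * T)) : M.trace = 0 := by
  have h1 : (T * M * T').trace = c * M.trace := by
    rw [h, smul_mul_assoc, mul_assoc, hT, mul_one, Matrix.trace_smul, smul_eq_mul]
  have h2 : (T * M * T').trace = M.trace := by
    rw [mul_assoc, Matrix.trace_mul_comm, mul_assoc, mul_eq_one_comm.mp hT, mul_one]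
  rw [h2] at h1
  have h3 : (1 - c) * M.trace = 0 := by linear_combination h1
  rcases mul_eq_zero.mp h3 with h4 | h4
  · exact absurd (sub_eq_zero.mp h4).symm hc
  · exact h4

theorem rt_isReducedTrace (hn : 2 ≤ n) (hξ : IsPrimitiveRoot ξ n) (ha : a ≠ 0) (hb : b ≠ 0) :
    IsReducedTrace F (SymbolAlg F n ξ a b) (rt hn hξ ha hb) := by
  have hn0 : 0 < n := by omega
  have hξ0 := hξ.ne_zero hn0.ne'
  have hfin : Module.Finite F (SymbolAlg F n ξ a b) := finite_symb hn hξ0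
  refine ⟨⟨AlgebraicClosure F, inferInstance, inferInstance, n, symb_split hn hξ ha hb⟩, ?_⟩
  intro K _ _ m φ x
  have hm : m = n := by
    have h1 := φ.toLinearEquiv.finrank_eq
    rw [Module.finrank_baseChange, finrank_symb_eq hn hξ ha hb, Module.finrank_matrix,
      Module.finrank_self, mul_one, Fintype.card_fin, ← pow_two] at h1
    exact (Nat.pow_left_injective (two_ne_zero) h1).symm
  let j : SymbolAlg F n ξ a b →ₐ[F] K ⊗[F] SymbolAlg F n ξ a b :=
    Algebra.TensorProduct.includeRight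
  let ψ : SymbolAlg F n ξ a b →ₐ[F] Matrix (Fin m) (Fin m) K :=
    (φ.toAlgHom.restrictScalars F).comp j
  have hψ : ∀ y, φ (1 ⊗ₜ[F] y) = ψ y := fun y => rfl
  rw [hψ]
  have hg : ∀ g : Fin n × Fin n, g ≠ (⟨0, hn0⟩, ⟨0, hn0⟩) → (ψ (gm F n ξ a b g)).trace = 0 := by
    intro g hg
    obtain ⟨r, s, χ, hrs, hr, hχ⟩ := sep (F := F) (A := SymbolAlg F n ξ a b) hn0 hξ ha hb gu_pow
      gv_pow gu_gv g (⟨0, hn0⟩, ⟨0, hn0⟩) hg
    have h0 : χ (⟨0, hn0⟩, ⟨0, hn0⟩) = 1 := by
      have h1 := hr (⟨0, hn0⟩, ⟨0, hn0⟩)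
      have h2 : mon (gu F n ξ a b) (gv F n ξ a b) ((⟨0, hn0⟩, ⟨0, hn0⟩) : Fin n × Fin n) = 1 := by
        simp [mon]
      rw [h2, mul_one, one_mul] at h1
      have h3 : (1 : F) • r = χ (⟨0, hn0⟩, ⟨0, hn0⟩) • r := by rw [one_smul]; exact h1
      have h4 : Nontrivial (SymbolAlg F n ξ a b) := nontrivial_symb hn0 hξ
      have h5 : r ≠ 0 := by
        rintro rfl
        rw [zero_mul] at hrs
        exact zero_ne_one hrs
      exact (smul_left_injective F h5 h3).symm
    rw [h0] at hχ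
    refine trace_zero _ (ψ r) (ψ s) (algebraMap F K (χ g)) ?_ (by rw [← map_mul, hrs, map_one]) ?_
    · intro h
      exact hχ ((algebraMap F K).injective (by rw [h, map_one]))
    · rw [gm_eq, ← map_mul, hr, map_smul, map_mul, algebraMap_smul]
  have h1 : ψ x = ∑ g, (sb hn hξ ha hb).repr x g • ψ (gm F n ξ a b g) := by
    conv_lhs => rw [← (sb hn hξ ha hb).sum_repr x]
    rw [map_sum]
    apply Finset.sum_congr rfl
    intro g _
    rw [map_smul, sb_apply]
  rw [h1, Matrix.trace_sum, Finset.sum_eq_single (⟨0, hn0⟩, ⟨0, hn0⟩)]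
  · have h2 : gm F n ξ a b ((⟨0, hn0⟩, ⟨0, hn0⟩) : Fin n × Fin n) = 1 := by
      simp [gm]
    rw [h2, map_one, Matrix.trace_smul, Matrix.trace_one, Fintype.card_fin, hm]
    simp only [rt, LinearMap.smul_apply, Module.Basis.coord_apply, smul_eq_mul, map_mul,
      map_natCast]
    rw [Algebra.smul_def, mul_comm]
  · intro g _ hg'
    rw [Matrix.trace_smul, hg g hg', smul_zero]
  · simp

end Coef

section Space

variable {F : Type} [Field F] {n : ℕ} {ξ a b : F}

/-- eigenspaces of conjugation by `v` -/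
def Es (F : Type) [Field F] (n : ℕ) (ξ a b : F) (m : ℕ) : Submodule F (SymbolAlg F n ξ a b) where
  carrier := {x | gv F n ξ a b * x = ξ⁻¹ ^ m • (x * gv F n ξ a b)}
  add_mem' {x y} hx hy := by
    simp only [Set.mem_ofPred_eq] at hx hy ⊢
    rw [mul_add, hx, hy, add_mul, smul_add]
  zero_mem' := by simp
  smul_mem' c x hx := by
    simp only [Set.mem_ofPred_eq] at hx ⊢
    rw [mul_smul_comm, hx, smul_mul_assoc, smul_comm]

theorem Es_mul (m m' : ℕ) (x y : SymbolAlg F n ξ a b) (hx : x ∈ Es F n ξ a b m)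
    (hy : y ∈ Es F n ξ a b m') : x * y ∈ Es F n ξ a b (m + m') := by
  change gv F n ξ a b * x = ξ⁻¹ ^ m • (x * gv F n ξ a b) at hx
  change gv F n ξ a b * y = ξ⁻¹ ^ m' • (y * gv F n ξ a b) at hy
  change gv F n ξ a b * (x * y) = ξ⁻¹ ^ (m + m') • (x * y * gv F n ξ a b)
  rw [← mul_assoc, hx, smul_mul_assoc, mul_assoc x, hy, mul_smul_comm, smul_smul, ← pow_add,
    mul_assoc]

/-- sum of the eigenspaces `s, ..., s + L` -/
def Ps (F : Type) [Field F] (n : ℕ) (ξ a b : F) (s L : ℕ) :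
    Submodule F (SymbolAlg F n ξ a b) := ⨆ i ∈ Finset.range (L + 1), Es F n ξ a b (s + i)

theorem Es_le_Ps (s L i : ℕ) (hi : i ≤ L) : Es F n ξ a b (s + i) ≤ Ps F n ξ a b s L := by
  exact le_iSup₂_of_le (f := fun i (_ : i ∈ Finset.range (L + 1)) => Es F n ξ a b (s + i)) i
    (by simpa using Nat.lt_succ_of_le hi) le_rfl

theorem Ps_mul (s L s' L' : ℕ) (x y : SymbolAlg F n ξ a b) (hx : x ∈ Ps F n ξ a b s L)
    (hy : y ∈ Ps F n ξ a b s' L') : x * y ∈ Ps F n ξ a b (s + s') (L + L') := by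
  have h1 : Ps F n ξ a b s L * Ps F n ξ a b s' L' ≤ Ps F n ξ a b (s + s') (L + L') := by
    rw [Ps, Ps]
    simp only [Submodule.iSup_mul, Submodule.mul_iSup]
    refine iSup_le fun i => iSup_le fun hi => iSup_le fun j => iSup_le fun hj => ?_
    rw [Finset.mem_range] at hi hj
    rw [Submodule.mul_le]
    intro x hx y hy
    have h2 := Es_mul _ _ x y hx hy
    have h3 : s + j + (s' + i) = (s + s') + (j + i) := by ring
    rw [h3] at h2
    exact Es_le_Ps _ _ _ (by omega) h2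
  exact h1 (Submodule.mul_mem_mul hx hy)

theorem Ps_pow (s L r : ℕ) (x : SymbolAlg F n ξ a b) (hx : x ∈ Ps F n ξ a b s L) :
    x ^ r ∈ Ps F n ξ a b (r * s) (r * L) := by
  induction r with
  | zero =>
    rw [pow_zero, zero_mul, zero_mul]
    apply Es_le_Ps 0 0 0 le_rfl
    change gv F n ξ a b * 1 = ξ⁻¹ ^ 0 • (1 * gv F n ξ a b)
    rw [pow_zero, one_smul, mul_one, one_mul]
  | succ r ih =>
    rw [pow_succ, Nat.succ_mul, Nat.succ_mul]
    exact Ps_mul _ _ _ _ _ _ ih hx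

theorem rt_Es (hn : 2 ≤ n) (hξ : IsPrimitiveRoot ξ n) (ha : a ≠ 0) (hb : b ≠ 0) (m : ℕ)
    (hm : ¬ n ∣ m) (x : SymbolAlg F n ξ a b) (hx : x ∈ Es F n ξ a b m) :
    rt hn hξ ha hb x = 0 := by
  have hn0 : 0 < n := by omega
  change gv F n ξ a b * x = ξ⁻¹ ^ m • (x * gv F n ξ a b) at hx
  simp only [rt, LinearMap.smul_apply, Module.Basis.coord_apply, smul_eq_mul]
  by_cases h0 : (sb hn hξ ha hb).repr x (⟨0, by omega⟩, ⟨0, by omega⟩) = 0
  · rw [h0, mul_zero]
  · exfalso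
    have h1 := coef_v hn hξ ha hb x _ hx _ h0
    simp only [pow_zero] at h1
    exact hm ((hξ.inv.pow_eq_one_iff_dvd m).mp h1.symm)

theorem rt_Ps (hn : 2 ≤ n) (hξ : IsPrimitiveRoot ξ n) (ha : a ≠ 0) (hb : b ≠ 0) (s L : ℕ)
    (hs : ∀ i ≤ L, ¬ n ∣ s + i) (x : SymbolAlg F n ξ a b) (hx : x ∈ Ps F n ξ a b s L) :
    rt hn hξ ha hb x = 0 := by
  have h1 : Ps F n ξ a b s L ≤ LinearMap.ker (rt hn hξ ha hb) := by
    refine iSup_le fun i => iSup_le fun hi => ?_
    intro y hy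
    rw [Finset.mem_range] at hi
    exact rt_Es hn hξ ha hb _ (hs i (by omega)) y hy
  exact h1 hx

theorem finrank_Ps (hn : 2 ≤ n) (hξ : IsPrimitiveRoot ξ n) (ha : a ≠ 0) (hb : b ≠ 0) (s L : ℕ)
    (hL : L < n) : (L + 1) * n ≤ Module.finrank F (Ps F n ξ a b s L) := by
  have hn0 : 0 < n := by omega
  have : Module.Finite F (SymbolAlg F n ξ a b) := finite_symb hn (hξ.ne_zero hn0.ne')
  let ι : Fin (L + 1) × Fin n → Fin n × Fin n := fun q => (⟨(s + q.1.val) % n, Nat.mod_lt _ hn0⟩, q.2)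
  have hι : Function.Injective ι := by
    intro q q' h
    have h1 := congrArg (fun z => z.1.val) h
    have h2 := congrArg (fun z => z.2) h
    simp only [ι] at h1 h2
    refine Prod.ext (Fin.ext ?_) h2
    have h3 : q.1.val ≡ q'.1.val [MOD n] := Nat.ModEq.add_left_cancel' s h1
    have h4 := q.1.isLt
    have h5 := q'.1.isLt
    exact Nat.ModEq.eq_of_lt_of_lt h3 (by omega) (by omega)
  have hind : LinearIndependent F (fun q => gm F n ξ a b (ι q)) :=
    (gm_indep hn hξ ha hb).comp ι hι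
  have hle : Submodule.span F (Set.range (fun q => gm F n ξ a b (ι q))) ≤ Ps F n ξ a b s L := by
    rw [Submodule.span_le]
    rintro _ ⟨q, rfl⟩
    apply Es_le_Ps s L q.1.val (by omega)
    change gv F n ξ a b * _ = ξ⁻¹ ^ (s + q.1.val) • (_ * gv F n ξ a b)
    rw [gm_eq, V_mon (hξ.ne_zero hn0.ne') gu_gv]
    congr 1
    simp only [ι]
    exact (pow_eq_pow_mod _ hξ.inv.pow_eq_one).symm
  have h1 := Submodule.finrank_mono hle
  rw [finrank_span_eq_card hind, Fintype.card_prod, Fintype.card_fin, Fintype.card_fin] at h1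
  exact h1

/-- The main construction: for `r ∤ p - 1` there is an `r`-trace-vanishing subspace of dimension
greater than `⌊(p² - 1) / r⌋`. -/
theorem exists_space {p : ℕ} (hp : p.Prime) (hξ : IsPrimitiveRoot ξ p) (ha : a ≠ 0) (hb : b ≠ 0)
    (r : ℕ) (hr2 : 2 ≤ r) (hrp : r ≤ p - 1) (hr : ¬ r ∣ p - 1) :
    ∃ V : Submodule F (SymbolAlg F p ξ a b),
      (p ^ 2 - 1) / r < Module.finrank F V ∧
      ∀ v ∈ V, rt hp.two_le hξ ha hb (v ^ r) = 0 := by
  have hp2 := hp.two_le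
  -- `q = ⌊(p - 2) / r⌋`
  set q := (p - 2) / r with hq
  have hqr : q * r ≤ p - 2 := Nat.div_mul_le_self _ _
  have hqr2 : p ≤ r * (q + 1) := by
    have h1 : (p - 2) % r < r := Nat.mod_lt _ (by omega)
    have h2 := Nat.div_add_mod (p - 2) r
    rw [← hq] at h2
    have h3 : (p - 2) % r ≠ r - 1 := by
      intro h4
      apply hr
      refine ⟨q + 1, ?_⟩
      rw [mul_add, mul_one]
      omega
    rw [mul_add, mul_one]
    omega
  -- `s` with `r s ≡ 1 mod p`
  have hcop : Nat.Coprime r p := by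
    rw [Nat.coprime_comm, hp.coprime_iff_not_dvd]
    intro h
    have := Nat.le_of_dvd (by omega) h
    omega
  obtain ⟨s, hs⟩ : ∃ s, r * s ≡ 1 [MOD p] := by
    obtain ⟨m, -, hm⟩ := Nat.exists_mul_mod_eq_one_of_coprime hcop (by omega)
    exact ⟨m, by rw [Nat.ModEq, hm, Nat.mod_eq_of_lt (by omega)]⟩
  refine ⟨Ps F p ξ a b s q, ?_, ?_⟩
  · have h1 := finrank_Ps hp2 hξ ha hb s q (by
      have : q ≤ q * r := Nat.le_mul_of_pos_right _ (by omega)
      omega)
    refine lt_of_lt_of_le ?_ h1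
    rw [Nat.div_lt_iff_lt_mul (by omega)]
    have h2 : p * p ≤ (q + 1) * p * r := by
      calc p * p ≤ (r * (q + 1)) * p := Nat.mul_le_mul_right _ hqr2
        _ = (q + 1) * p * r := by ring
    have h3 : 0 < p * p := Nat.mul_pos (by omega) (by omega)
    rw [pow_two]
    omega
  · intro v hv
    apply rt_Ps hp2 hξ ha hb _ _ _ _ (Ps_pow s q r v hv)
    intro i hi hdvd
    have h1 : 1 + i ≡ 0 [MOD p] := by
      have h2 : r * s + i ≡ 1 + i [MOD p] := Nat.ModEq.add_right i hs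
      exact h2.symm.trans ((Nat.modEq_zero_iff_dvd).mpr hdvd)
    have h3 := (Nat.modEq_zero_iff_dvd).mp h1
    have h4 := Nat.le_of_dvd (by omega) h3
    rw [mul_comm] at hi
    omega

end Space

end Pool.Agent.Q113.TR
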