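import Mathlib
import Pool.Agent.Q113.TR.Trace

/-!
The generic symbol algebra is a division algebra.
-/

set_option autoImplicit false

open Finset
open scoped TensorProduct

noncomputable section

namespace Pool.Agent.Q113.TR

open Pool.Agent.Helper51.SymbolDefs Pool.Agent.Helper51.CompositeDegree

section Div

variable {F K : Type} [Field F] [Field K] {n : ℕ} {ξ a b : F}

/-- a symbol algebra that becomes a division algebra over an extension is a division algebra -/
theorem isDiv_of_ext (hn : 2 ≤ n) (hξ : IsPrimitiveRoot ξ n) (ha : a ≠ 0) (hb : b ≠ 0)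
    (ι : F →+* K) (h : IsDivisionAlg (SymbolAlg K n (ι ξ) (ι a) (ι b))) :
    IsDivisionAlg (SymbolAlg F n ξ a b) := by
  have hn0 : 0 < n := by omega
  have hnt : Nontrivial (SymbolAlg F n ξ a b) := nontrivial_symb hn0 hξ
  refine ⟨hnt, ?_⟩
  let : Algebra F (SymbolAlg K n (ι ξ) (ι a) (ι b)) :=
    ((algebraMap K (SymbolAlg K n (ι ξ) (ι a) (ι b))).comp ι).toAlgebra'
      (fun c x => Algebra.commutes (ι c) x)
  have hmap : ∀ c : F, algebraMap F (SymbolAlg K n (ι ξ) (ι a) (ι b)) c = algebraMap K _ (ι c) :=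
    fun c => rfl
  let f : SymbolAlg F n ξ a b →ₐ[F] SymbolAlg K n (ι ξ) (ι a) (ι b) :=
    lift (gu K n (ι ξ) (ι a) (ι b)) (gv K n (ι ξ) (ι a) (ι b)) (by rw [hmap, gu_pow])
      (by rw [hmap, gv_pow]) (by rw [gu_gv, Algebra.smul_def, Algebra.smul_def, hmap])
  have hs := symb_simple hn hξ ha hb
  have hntK := h.1
  have hinj : Function.Injective f := f.toRingHom.injective
  have hfin : Module.Finite F (SymbolAlg F n ξ a b) := finite_symb hn (hξ.ne_zero hn0.ne')
  intro x hx
  have hfx : f x ≠ 0 := by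
    intro h0
    exact hx (hinj (by rw [h0, map_zero]))
  have hu := h.2 _ hfx
  have hmul : Function.Injective (LinearMap.mulLeft F x) := by
    intro y z hyz
    apply hinj
    have h1 : f x * f y = f x * f z := by
      rw [← map_mul, ← map_mul]
      exact congrArg f hyz
    exact hu.mul_left_cancel h1
  have hsurj := (LinearMap.injective_iff_surjective (f := LinearMap.mulLeft F x)).mp hmul
  obtain ⟨y, hy⟩ := hsurj 1
  have hy' : x * y = 1 := hy
  have h2 : y * x = 1 := by
    apply hmul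
    change x * (y * x) = x * 1
    rw [← mul_assoc, hy', one_mul, mul_one]
  exact ⟨⟨x, y, hy', h2⟩, rfl⟩

end Div

section Embed

variable (k : Type) [Field k]

/-- the rational function field `k(α, β)` -/
def RF2 : Type := FractionRing (MvPolynomial (Fin 2) k)

instance : Field (RF2 k) := (inferInstance : Field (FractionRing (MvPolynomial (Fin 2) k)))

instance : Algebra (MvPolynomial (Fin 2) k) (RF2 k) :=
  (inferInstance : Algebra (MvPolynomial (Fin 2) k) (FractionRing (MvPolynomial (Fin 2) k)))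

instance : IsFractionRing (MvPolynomial (Fin 2) k) (RF2 k) :=
  (inferInstance : IsFractionRing (MvPolynomial (Fin 2) k) (FractionRing (MvPolynomial (Fin 2) k)))

/-- the constants in `k(α, β)` -/
def cst : k →+* RF2 k := (algebraMap (MvPolynomial (Fin 2) k) (RF2 k)).comp MvPolynomial.C

/-- the two indeterminates -/
def ind (i : Fin 2) : RF2 k := algebraMap (MvPolynomial (Fin 2) k) (RF2 k) (MvPolynomial.X i)

/-- exponent vectors in the value group -/
def ex (m : Fin 2 →₀ ℕ) : ℤ ×ₗ ℤ := toLex ((m 0 : ℤ), (m 1 : ℤ))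

theorem ex_inj (m m' : Fin 2 →₀ ℕ) (h : ex m = ex m') : m = m' := by
  have h1 := toLex.injective h
  rw [Prod.mk.injEq] at h1
  ext i
  fin_cases i
  · exact_mod_cast h1.1
  · exact_mod_cast h1.2

/-- the embedding of the polynomial ring in the Hahn series field -/
def emb : MvPolynomial (Fin 2) k →ₐ[k] HahnSeries (ℤ ×ₗ ℤ) k :=
  MvPolynomial.aeval ![HahnSeries.single (toLex (1, 0)) 1, HahnSeries.single (toLex (0, 1)) 1]

theorem single_pow' (g : ℤ ×ₗ ℤ) (m : ℕ) :
    (HahnSeries.single g (1 : k)) ^ m = HahnSeries.single (m • g) 1 := by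
  rw [HahnSeries.single_pow, one_pow]

theorem emb_monomial (m : Fin 2 →₀ ℕ) (c : k) :
    emb k (MvPolynomial.monomial m c) = HahnSeries.single (ex m) c := by
  rw [emb, MvPolynomial.aeval_monomial, Finsupp.prod_fintype _ _ (fun i => by simp),
    Fin.prod_univ_two]
  simp only [Matrix.cons_val_zero, Matrix.cons_val_one, single_pow', HahnSeries.single_mul_single,
    mul_one]
  rw [← HahnSeries.C_eq_algebraMap, HahnSeries.C_apply, HahnSeries.single_mul_single, mul_one,
    zero_add]
  congr 1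
  simp only [ex]
  have h1 : ∀ (n : ℕ) (a : ℤ × ℤ), (n • toLex a : ℤ ×ₗ ℤ) = toLex (n • a) := fun n a => rfl
  rw [h1, h1, ← toLex_add]
  congr 1
  simp

theorem emb_coeff (P : MvPolynomial (Fin 2) k) (m : Fin 2 →₀ ℕ) :
    (emb k P).coeff (ex m) = P.coeff m := by
  induction P using MvPolynomial.induction_on' with
  | monomial m' c =>
    rw [emb_monomial, MvPolynomial.coeff_monomial]
    by_cases h : m' = m
    · rw [if_pos h, h, HahnSeries.coeff_single_same]
    · rw [if_neg h, HahnSeries.coeff_single_of_ne]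
      intro h'
      exact h (ex_inj _ _ h'.symm)
  | add p q hp hq => rw [map_add, HahnSeries.coeff_add, hp, hq, MvPolynomial.coeff_add]

theorem emb_injective : Function.Injective (emb k) := by
  rw [injective_iff_map_eq_zero]
  intro P hP
  ext m
  rw [← emb_coeff, hP]
  simp

/-- the embedding of the rational function field -/
def embF : RF2 k →+* HahnSeries (ℤ ×ₗ ℤ) k :=
  IsFractionRing.lift (A := MvPolynomial (Fin 2) k) (g := (emb k).toRingHom) (emb_injective k)

theorem embF_ind0 : embF k (ind k 0) = HahnSeries.single (toLex (1, 0)) 1 := by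
  rw [embF, ind, IsFractionRing.lift_algebraMap]
  change emb k (MvPolynomial.X 0) = _
  rw [emb, MvPolynomial.aeval_X]
  rfl

theorem embF_ind1 : embF k (ind k 1) = HahnSeries.single (toLex (0, 1)) 1 := by
  rw [embF, ind, IsFractionRing.lift_algebraMap]
  change emb k (MvPolynomial.X 1) = _
  rw [emb, MvPolynomial.aeval_X]
  rfl

theorem ind_ne_zero (i : Fin 2) : ind k i ≠ 0 := by
  rw [ind, Ne, IsFractionRing.to_map_eq_zero_iff]
  exact MvPolynomial.X_ne_zero i

/-- the generic symbol algebra `(α, β)_n` over `k(α, β)`: generated by `x = gv` and `y = gu` with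
`x ^ n = α`, `y ^ n = β`, `y x = ω x y`. -/
def GenSymb (n : ℕ) (ω : k) : Type := SymbolAlg (RF2 k) n (cst k ω) (ind k 1) (ind k 0)

instance (n : ℕ) (ω : k) : Ring (GenSymb k n ω) :=
  (inferInstance : Ring (SymbolAlg (RF2 k) n (cst k ω) (ind k 1) (ind k 0)))

instance (n : ℕ) (ω : k) : Algebra (RF2 k) (GenSymb k n ω) :=
  (inferInstance : Algebra (RF2 k) (SymbolAlg (RF2 k) n (cst k ω) (ind k 1) (ind k 0)))

theorem genSymb_div {n : ℕ} (hn : 2 ≤ n) {ω : k} (hω : IsPrimitiveRoot ω n) :
    IsDivisionAlg (GenSymb k n ω) := by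
  have hω' : IsPrimitiveRoot (cst k ω) n := hω.map_of_injective (cst k).injective
  apply isDiv_of_ext hn hω' (ind_ne_zero k 1) (ind_ne_zero k 0) (embF k)
  have h1 : IsPrimitiveRoot (embF k (cst k ω)) n :=
    hω'.map_of_injective (embF k).injective
  rw [embF_ind0, embF_ind1]
  have o1 : (HahnSeries.single (toLex ((0 : ℤ), (1 : ℤ))) (1 : k)).order = toLex (0, 1) :=
    HahnSeries.order_single one_ne_zero
  have o0 : (HahnSeries.single (toLex ((1 : ℤ), (0 : ℤ))) (1 : k)).order = toLex (1, 0) :=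
    HahnSeries.order_single one_ne_zero
  let pr1 : (ℤ ×ₗ ℤ) →+ ℤ := ⟨⟨fun x => (ofLex x).2, rfl⟩, fun _ _ => rfl⟩
  let pr0 : (ℤ ×ₗ ℤ) →+ ℤ := ⟨⟨fun x => (ofLex x).1, rfl⟩, fun _ _ => rfl⟩
  refine isDiv_symb hn h1 (by simp) (by simp) pr1 pr0 ?_ ?_ ?_ ?_
  · rw [o1]; rfl
  · rw [o0]; rfl
  · rw [o1]; rfl
  · rw [o0]; rfl

end Embed

/-- `A` is a central division algebra over `F` of dimension `d`. -/
def IsCentralDivision (F A : Type) [Field F] [Ring A] [Algebra F A] (d : ℕ) : Prop :=
  IsDivisionAlg A ∧ Algebra.IsCentral F A ∧ Module.finrank F A = d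

/-- `A` has an `r`-trace-vanishing subspace of dimension greater than `D`. -/
def HasTraceVanishing (F A : Type) [Field F] [Ring A] [Algebra F A] (r D : ℕ) : Prop :=
  ∃ t : A →ₗ[F] F, IsReducedTrace F A t ∧
    ∃ V : Submodule F A, (∀ v ∈ V, t (v ^ r) = 0) ∧ D < Module.finrank F V

end Pool.Agent.Q113.TR
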